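import Pool.Agent.H83.HN.Para
import Pool.Agent.H13.HN.Iitaka

/-!
# Invariant rational functions and orbit closures (module INVF)

`L` is an isotropic nef class on a hyperkaehler manifold such that every prime divisor orthogonal to
`L` is proportional to `L`; `π` is a parabolic group attached to `L`. A rational function invariant
under one non trivial element of `π` is a quotient of sections of a multiple of `L`. Hence the very
general orbit of every non trivial element is dense in the fibre of the Iitaka fibration.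
-/

namespace Pool.Agent.H35.HN

open Pool.Agent.H83.HN Pool.Agent.H13.HN

variable {n : ℕ} {Lam : Type} [AddCommGroup Lam] {q : Lam → Lam → ℤ} {M : Manifold n Lam q}
  {L A : Lam} {r : ℕ}

/-- `rho (k . m)` is the `k`-th power of `rho m`. -/
theorem rho_zsmul (π : Para M L A r) (m : Fin r → ℤ) (k : ℤ) : π.rho (k • m) = π.rho m ^ k := by
  let f : Multiplicative (Fin r → ℤ) →* M.Aut :=
    { toFun := fun m => π.rho m.toAdd
      map_one' := π.rho_zero
      map_mul' := fun a b => π.rho_add _ _ }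
  exact map_zpow f (Multiplicative.ofAdd m) k

theorem pull_L (hLL : q L L = 0) (π : Para M L A r)
    (m : Fin r → ℤ) : M.pull (π.rho m) L = L := by
  rw [π.pull_eq, hLL, π.b_L]
  simp

/-- A class fixed by a non trivial element of the parabolic group is orthogonal to `L`. -/
theorem fixed_orth (q_symm : ∀ x y, q x y = q y x) (q_add : ∀ x y z, q (x + y) z = q x z + q y z)
    (π : Para M L A r) {m : Fin r → ℤ} (hm : m ≠ 0) {D : Lam} (hfix : M.pull (π.rho m) D = D) :
    q D L = 0 := by
  rw [π.pull_eq] at hfix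
  have h1 : (2 * q L D) • π.b m = (2 * q (π.b m) D + 2 * q (π.b m) (π.b m) * q L D) • L := by
    have h3 : D + ((2 * q L D) • π.b m -
        (2 * q (π.b m) D + 2 * q (π.b m) (π.b m) * q L D) • L) = D + 0 := by
      rw [add_zero, ← add_sub_assoc]
      exact hfix
    exact sub_eq_zero.1 (add_left_cancel h3)
  let F : Lam →+ ℤ := AddMonoidHom.mk' (fun x => q x (π.b m)) (fun x y => q_add x y _)
  have h3 : F ((2 * q L D) • π.b m) =
      F ((2 * q (π.b m) D + 2 * q (π.b m) (π.b m) * q L D) • L) := by rw [h1]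
  rw [map_zsmul, map_zsmul] at h3
  have h4 : F L = 0 := by
    change q L (π.b m) = 0
    rw [q_symm]
    exact π.b_L m
  have h5 : F (π.b m) < 0 := π.b_neg m hm
  rw [h4, smul_zero, smul_eq_mul] at h3
  rcases mul_eq_zero.1 h3 with h6 | h6
  · rw [q_symm]
    omega
  · exact absurd h6 h5.ne

/-- An effective class orthogonal to the nef class `L` is proportional to `L`, if all the prime
divisors orthogonal to `L` are. -/
theorem effective_orth (q_add : ∀ x y z, q (x + y) z = q x z + q y z) (hL : L ∈ M.Nef)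
    (hprime : ∀ D ∈ M.Prime, q D L = 0 → ∃ a b : ℕ, 0 < a ∧ 0 < b ∧ a • D = b • L) {D : Lam}
    (hD : D ∈ AddSubmonoid.closure M.Prime) :
    0 ≤ q D L ∧ (q D L = 0 → ∃ a b : ℕ, 0 < a ∧ a • D = b • L) := by
  induction hD using AddSubmonoid.closure_induction with
  | mem x hx =>
    refine ⟨M.prime_nef x hx L hL, fun h => ?_⟩
    obtain ⟨a, b, ha, _, hab⟩ := hprime x hx h
    exact ⟨a, b, ha, hab⟩
  | zero =>
    have q0 : q 0 L = 0 := by
      have := q_add 0 0 L
      rw [add_zero] at this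
      omega
    exact ⟨q0.ge, fun _ => ⟨1, 0, one_pos, by simp⟩⟩
  | add x y _ _ hx hy =>
    have h1 := q_add x y L
    refine ⟨by omega, fun h => ?_⟩
    obtain ⟨a, b, ha, hab⟩ := hx.2 (by omega)
    obtain ⟨c, d, hc, hcd⟩ := hy.2 (by omega)
    refine ⟨a * c, c * b + a * d, Nat.mul_pos ha hc, ?_⟩
    rw [smul_add, add_smul, mul_comm a c, mul_smul, hab, mul_comm c a, mul_smul a c, hcd, mul_smul,
      mul_smul]

theorem sec_pow {D : Lam} {t : M.P → ℂ} (ht : t ∈ M.Sec D) (j : ℕ) :
    t ^ (j + 1) ∈ M.Sec ((j + 1) • D) := by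
  induction j with
  | zero => simpa using ht
  | succ j ih =>
    rw [pow_succ, succ_nsmul]
    exact M.sec_mul _ _ _ ih _ ht

/-- **INVARIANT FUNCTIONS.** A rational function `u/t` which is invariant under a non trivial
element of the parabolic group is a quotient of sections of a multiple of `L`. -/
theorem inv_function (q_symm : ∀ x y, q x y = q y x)
    (q_add : ∀ x y z, q (x + y) z = q x z + q y z) (hL : L ∈ M.Nef)
    (hprime : ∀ D ∈ M.Prime, q D L = 0 → ∃ a b : ℕ, 0 < a ∧ 0 < b ∧ a • D = b • L)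
    (π : Para M L A r) {m : Fin r → ℤ} (hm : m ≠ 0) {D : Lam} (hD : D ∈ M.NS) {u t : M.P → ℂ}
    (hu : u ∈ M.Sec D) (ht : t ∈ M.Sec D) (ht0 : t ≠ 0)
    (hinv : ∀ y, u (π.rho m • y) * t y = t (π.rho m • y) * u y) :
    ∃ a : ℕ, ∃ u' ∈ M.Sec (a • L), ∃ t' ∈ M.Sec (a • L), t' ≠ 0 ∧
      ∀ y, u y * t' y = u' y * t y := by
  obtain ⟨D', hD', hfix, s', hs', t', ht', ht'0, heq⟩ :=
    M.inv_poles (π.rho m) D hD u hu t ht ht0 hinv
  have hDL := fixed_orth q_symm q_add π hm hfix
  have hne : M.Sec D' ≠ ⊥ := by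
    intro h
    rw [h] at ht'
    exact ht'0 ((Submodule.mem_bot ℂ).1 ht')
  obtain ⟨a, b, ha, hab⟩ := (effective_orth q_add hL hprime (M.effective D' hD' hne)).2 hDL
  obtain ⟨j, rfl⟩ : ∃ j, a = j + 1 := ⟨a - 1, by omega⟩
  refine ⟨b, s' * t' ^ j, ?_, t' ^ (j + 1), ?_, ?_, ?_⟩
  · rw [← hab]
    rcases j with _ | j
    · simpa using hs'
    · rw [succ_nsmul, mul_comm]
      exact M.sec_mul _ _ _ (sec_pow ht' j) _ hs'
  · rw [← hab]
    exact sec_pow ht' j
  · obtain ⟨y, hy⟩ := Function.ne_iff.1 ht'0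
    intro h
    have h1 := congrFun h y
    exact pow_ne_zero (j + 1) hy h1
  · intro y
    have h1 := heq y
    simp only [Pi.mul_apply, Pi.pow_apply]
    rw [pow_succ]
    linear_combination (t' y) ^ j * h1

/-- **ORBIT CLOSURES.** For a very general point `x` the orbit of every non trivial element of the
parabolic group is dense in the fibre of the Iitaka fibration through `x`. -/
theorem orbit_closure (q_symm : ∀ x y, q x y = q y x)
    (q_add : ∀ x y z, q (x + y) z = q x z + q y z) (hL : L ∈ M.Nef)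
    (hprime : ∀ D ∈ M.Prime, q D L = 0 → ∃ a b : ℕ, 0 < a ∧ 0 < b ∧ a • D = b • L)
    (π : Para M L A r) (I : Iitaka M L) :
    ∃ bad : ℕ → Set M.P, (∀ i, IsClosed (bad i) ∧ bad i ≠ Set.univ) ∧
      ∀ x, (∀ i, x ∉ bad i) → ∀ m : Fin r → ℤ, m ≠ 0 →
        I.Fib x ⊆ closure (Set.range fun k : ℤ => π.rho (k • m) • x) := by
  classical
  have h1 : ∀ m : Fin r → ℤ, ∃ bad : ℕ → Set M.P,
      (∀ i, IsClosed (bad i) ∧ bad i ≠ Set.univ) ∧
      (m ≠ 0 → ∀ x, (∀ i, x ∉ bad i) →
        I.Fib x ⊆ closure (Set.range fun k : ℤ => π.rho m ^ k • x)) := by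
    intro m
    by_cases hm : m = 0
    · exact ⟨fun _ => ∅, fun i => ⟨isClosed_empty, Set.empty_ne_univ⟩, fun h => absurd hm h⟩
    · obtain ⟨bad, hbad, hd⟩ := I.amerik_campana (π.rho m)
        (fun D hD u hu t ht ht0 hinv => inv_function q_symm q_add hL hprime π hm hD hu ht ht0 hinv)
      exact ⟨bad, hbad, fun _ => hd⟩
  choose bad hbad hd using h1
  let f : Option ((Fin r → ℤ) × ℕ) → Set M.P := fun o => o.elim ∅ fun c => bad c.1 c.2
  have hf : ∀ o, IsClosed (f o) ∧ f o ≠ Set.univ := by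
    rintro (_ | c)
    · exact ⟨isClosed_empty, Set.empty_ne_univ⟩
    · exact hbad c.1 c.2
  refine ⟨fun k => f (Encodable.decode k), fun k => hf _, fun x hx m hm => ?_⟩
  have h2 := hd m hm x (fun i hi => by
    have h3 := hx (Encodable.encode (m, i))
    simp only [Encodable.encodek] at h3
    exact h3 hi)
  simpa only [rho_zsmul] using h2

/-- If the element acts trivially on the base, the closure of the orbit IS the fibre. -/
theorem orbit_closure_eq {I : Iitaka M L} (π : Para M L A r) {m : Fin r → ℤ}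
    (hm : π.rho m ∈ I.triv) (hm' : π.rho (-m) ∈ I.triv) {x : M.P} (hx : x ∈ I.Reg)
    (h : I.Fib x ⊆ closure (Set.range fun k : ℤ => π.rho (k • m) • x)) :
    closure (Set.range fun k : ℤ => π.rho (k • m) • x) = I.Fib x := by
  refine Set.Subset.antisymm (closure_minimal ?_ (I.fib_closed x hx)) h
  have hstep : ∀ g ∈ I.triv, ∀ y ∈ I.Fib x, g • y ∈ I.Fib x := fun g hg y hy =>
    (I.triv_reg g hg x hx).2 y hy
  have hnat : ∀ (m : Fin r → ℤ), π.rho m ∈ I.triv → ∀ k : ℕ,
      π.rho ((k : ℤ) • m) • x ∈ I.Fib x := by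
    intro m hm k
    induction k with
    | zero =>
      have h0 : ((0 : ℕ) : ℤ) • m = 0 := by simp
      rw [h0, π.rho_zero, one_smul]
      exact I.fib_mem x hx
    | succ k ih =>
      have h0 : ((k + 1 : ℕ) : ℤ) • m = m + (k : ℤ) • m := by
        push_cast
        rw [add_smul, one_smul, add_comm]
      rw [h0, π.rho_add, mul_smul]
      exact hstep _ hm _ ih
  rintro _ ⟨k, rfl⟩
  rcases Int.eq_nat_or_neg k with ⟨j, rfl | rfl⟩
  · exact hnat m hm j
  · have h0 : (-(j : ℤ)) • m = (j : ℤ) • (-m) := by rw [neg_smul, smul_neg]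
    simp only [h0]
    exact hnat (-m) hm' j

end Pool.Agent.H35.HN
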