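import Pool.Agent.H83.HN.Para
import Pool.Agent.H13.HN.Disc
import Pool.Agent.H49.HN.HTeps

/-!
# Growth of heights along the orbits of the parabolic group (module HTJ)

`Pool.Agent.H49.HN.heights_growth_eps` for the points `m.x` of `Pool.Agent.H13.HN.Disc`.
-/

namespace Pool.Agent.H35.HN

open Pool.Agent.H83.HN Pool.Agent.H13.HN
open scoped BigOperators

variable {n : ℕ} {Lam : Type} [AddCommGroup Lam] {q : Lam → Lam → ℤ} {M : Manifold n Lam q}
  {L A : Lam} {r : ℕ}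

/-- **HEIGHT GROWTH** with exponent `2 + ε`: the height of the point `m.x` is at most
`C (1 + |m|)^2 ((1 + |m|)^ε + 1 + h(x))`. -/
theorem height_growth (q_symm : ∀ x y, q x y = q y x)
    (q_add : ∀ x y z, q (x + y) z = q x z + q y z) (π : Para M L A r) (hr : 2 ≤ r)
    (hA : A ∈ M.Ample) (hL : L ∈ M.NS) (hLL : q L L = 0) (hLA : 0 < q L A) {kap : ℕ}
    {Good : Set M.P} {JA : M.P → (M.P → ℂ) → MvPowerSeries (Fin kap) ℂ}
    {p : ℕ} [Fact p.Prime]
    (Dd : Disc q (M.NS : Set Lam) M.Ample (M.Sec A) n (fun m (y : M.P) => π.rho m • y)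
      (fun m x => M.pull (π.rho m) x) A Good JA p) (ε : ℝ) (hε : 0 < ε) :
    ∃ C : ℝ, 0 ≤ C ∧ ∀ (x : Dd.D) (m : Fin r → ℤ),
      Height.logHeight (fun j => MvPowerSeries.constantCoeff (Dd.co x m j)) ≤
        C * (1 + ∑ i, |(m i : ℝ)|) ^ 2 * ((1 + ∑ i, |(m i : ℝ)|) ^ ε + 1 +
          Height.logHeight (fun j => MvPowerSeries.constantCoeff (Dd.co x 0 j))) := by
  have hANS : A ∈ M.NS := M.nef_NS (M.ample_nef hA)
  refine Pool.Agent.H49.HN.heights_growth_eps q q_symm q_add M.NS M.Ample A L hANS hL hLA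
    (M.ample_dom A hA) hr (fun m x => M.pull (π.rho m) x) π.b π.b_NS π.b_neg
    (fun m => M.pull_NS _ _ hANS) (fun m => ?_) (fun m => ?_) Dd.H
    (fun x m => Height.logHeight (fun j => MvPowerSeries.constantCoeff (Dd.co x m j)))
    (fun x m => ?_) Dd.H_add Dd.H_A Dd.H_pull Dd.H_pos ε hε
  · show M.pull (π.rho m) L = L
    rw [π.pull_eq, hLL, π.b_L]
    simp
  · show M.pull (π.rho m) A = _
    rw [π.pull_eq, π.b_A]
    congr 2
    ring
  · exact Height.logHeight_nonneg _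

/-- **HEIGHT GROWTH**, in the form used in END: `C (1 + |m|)^2 ((1 + |m|)^ε + h(x))`. -/
theorem height_growth' (q_symm : ∀ x y, q x y = q y x)
    (q_add : ∀ x y z, q (x + y) z = q x z + q y z) (π : Para M L A r) (hr : 2 ≤ r)
    (hA : A ∈ M.Ample) (hL : L ∈ M.NS) (hLL : q L L = 0) (hLA : 0 < q L A) {kap : ℕ}
    {Good : Set M.P} {JA : M.P → (M.P → ℂ) → MvPowerSeries (Fin kap) ℂ}
    {p : ℕ} [Fact p.Prime]
    (Dd : Disc q (M.NS : Set Lam) M.Ample (M.Sec A) n (fun m (y : M.P) => π.rho m • y)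
      (fun m x => M.pull (π.rho m) x) A Good JA p) (ε : ℝ) (hε : 0 < ε) :
    ∃ C : ℝ, 0 ≤ C ∧ ∀ (x : Dd.D) (m : Fin r → ℤ),
      Height.logHeight (fun j => MvPowerSeries.constantCoeff (Dd.co x m j)) ≤
        C * (1 + ∑ i, |(m i : ℝ)|) ^ 2 * ((1 + ∑ i, |(m i : ℝ)|) ^ ε +
          Height.logHeight (fun j => MvPowerSeries.constantCoeff (Dd.co x 0 j))) := by
  obtain ⟨C, hC, h⟩ := height_growth q_symm q_add π hr hA hL hLL hLA Dd ε hε
  refine ⟨2 * C, by positivity, fun x m => (h x m).trans ?_⟩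
  have hS : (0 : ℝ) ≤ ∑ i, |(m i : ℝ)| := Finset.sum_nonneg fun i _ => abs_nonneg _
  have h1 : (1 : ℝ) ≤ (1 + ∑ i, |(m i : ℝ)|) ^ ε :=
    Real.one_le_rpow (by linarith) hε.le
  have h2 : (0 : ℝ) ≤ Height.logHeight (fun j => MvPowerSeries.constantCoeff (Dd.co x 0 j)) :=
    Height.logHeight_nonneg _
  have h3 : 0 ≤ C * (1 + ∑ i, |(m i : ℝ)|) ^ 2 := by positivity
  nlinarith [mul_nonneg h3 h2, mul_nonneg h3 (sub_nonneg.2 h1)]

end Pool.Agent.H35.HN
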